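import Pool.Agent.Y468.SR.Main

/-!
# Labels of the circles around the triple points, in a free group
-/

set_option autoImplicit false
set_option linter.unusedSimpArgs false

namespace Pool.Agent.Y475.TP

open Pool.Agent.Y468.SR

/-- names of the letters -/
abbrev Sl : Type := ℕ × Bool

/-- letters and their inverses -/
abbrev Lt : Type := Sl × Bool

/-- The labels on a circle with the cyclic word `[b2, a2, b1, a1]`; `ca`, `cb` tell whether the curves
`a`, `b` are closed. -/
def gword (b2 a2 b1 a1 : Sl) (ca cb : Bool) (s : Sl) : List Lt :=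
  match ca, cb with
  | true, true => []
  | true, false => if s = b2 then [(a1, false), (b1, false), (a1, true)] else
      if s = b1 then [(b1, true)] else if s = a2 then [(a1, false)] else [(a1, true)]
  | false, true => if s = a1 then [(b1, false), (a2, false), (b1, true)] else
      if s = a2 then [(a2, true)] else if s = b2 then [(b1, false)] else [(b1, true)]
  | false, false => if s = a1 then [(b1, false), (a2, false), (b2, false)] else [(s, true)]

theorem gword_prod {b2 a2 b1 a1 : Sl} (h : [b2, a2, b1, a1].Nodup) (ca cb : Bool) :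
    FreeGroup.mk (gword b2 a2 b1 a1 ca cb b2) * FreeGroup.mk (gword b2 a2 b1 a1 ca cb a2) *
      FreeGroup.mk (gword b2 a2 b1 a1 ca cb b1) * FreeGroup.mk (gword b2 a2 b1 a1 ca cb a1) = 1 := by
  simp only [List.nodup_cons, List.mem_cons, List.not_mem_nil, or_false, not_or, not_false_eq_true,
    List.nodup_nil, and_true] at h
  obtain ⟨⟨h1, h2, h3⟩, ⟨h4, h5⟩, h6⟩ := h
  cases ca <;> cases cb
  · simp only [gword, h3, h5, h6, if_false, if_true]
    change FreeGroup.of b2 * FreeGroup.of a2 * FreeGroup.of b1 *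
      ((FreeGroup.of b1)⁻¹ * (FreeGroup.of a2)⁻¹ * (FreeGroup.of b2)⁻¹) = 1
    group
  · simp only [gword, h1, h3, h5, h6, Ne.symm h2, Ne.symm h4, if_false, if_true]
    change (FreeGroup.of b1)⁻¹ * FreeGroup.of a2 * FreeGroup.of b1 *
      ((FreeGroup.of b1)⁻¹ * (FreeGroup.of a2)⁻¹ * FreeGroup.of b1) = 1
    group
  · simp only [gword, Ne.symm h1, Ne.symm h2, Ne.symm h3, h4, Ne.symm h5, Ne.symm h6,
      if_false, if_true]
    change ((FreeGroup.of a1)⁻¹ * (FreeGroup.of b1)⁻¹ * FreeGroup.of a1) * (FreeGroup.of a1)⁻¹ *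
      FreeGroup.of b1 * FreeGroup.of a1 = 1
    group
  · simp only [gword]
    rfl

theorem gword_ca {b2 a2 b1 a1 : Sl} (h : [b2, a2, b1, a1].Nodup) (cb : Bool) :
    FreeGroup.mk (gword b2 a2 b1 a1 true cb a1) =
      (FreeGroup.mk (gword b2 a2 b1 a1 true cb a2))⁻¹ := by
  simp only [List.nodup_cons, List.mem_cons, List.not_mem_nil, or_false, not_or, not_false_eq_true,
    List.nodup_nil, and_true] at h
  obtain ⟨⟨h1, h2, h3⟩, ⟨h4, h5⟩, h6⟩ := h
  cases cb
  · simp only [gword, Ne.symm h1, Ne.symm h3, h4, Ne.symm h5, Ne.symm h6, if_false, if_true]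
    rfl
  · simp only [gword]
    rfl

theorem gword_cb {b2 a2 b1 a1 : Sl} (h : [b2, a2, b1, a1].Nodup) (ca : Bool) :
    FreeGroup.mk (gword b2 a2 b1 a1 ca true b1) =
      (FreeGroup.mk (gword b2 a2 b1 a1 ca true b2))⁻¹ := by
  simp only [List.nodup_cons, List.mem_cons, List.not_mem_nil, or_false, not_or, not_false_eq_true,
    List.nodup_nil, and_true] at h
  obtain ⟨⟨h1, h2, h3⟩, ⟨h4, h5⟩, h6⟩ := h
  cases ca
  · simp only [gword, h1, Ne.symm h2, h3, Ne.symm h4, h6, if_false, if_true]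
    rfl
  · simp only [gword]
    rfl

/-- the letters on a circle -/
theorem gword_mem {b2 a2 b1 a1 : Sl} {ca cb : Bool} {s : Sl} (hs : s ∈ [b2, a2, b1, a1]) {x : Lt}
    (hx : x ∈ gword b2 a2 b1 a1 ca cb s) : x.1 ∈ [b2, a2, b1, a1] := by
  cases ca <;> cases cb <;> simp only [gword] at hx
  · split_ifs at hx
    · simp only [List.mem_cons, List.not_mem_nil, or_false] at hx
      rcases hx with rfl | rfl | rfl <;> simp
    · simp only [List.mem_cons, List.not_mem_nil, or_false] at hx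
      rw [hx]
      exact hs
  · split_ifs at hx <;> simp only [List.mem_cons, List.not_mem_nil, or_false] at hx
    · rcases hx with rfl | rfl | rfl <;> simp
    · rw [hx]; simp
    · rw [hx]; simp
    · rw [hx]; simp
  · split_ifs at hx <;> simp only [List.mem_cons, List.not_mem_nil, or_false] at hx
    · rcases hx with rfl | rfl | rfl <;> simp
    · rw [hx]; simp
    · rw [hx]; simp
    · rw [hx]; simp
  · simp at hx

/-- The word of a passage of `D` matched with the slot `s` of the circle. -/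
def iword (b2 a2 b1 a1 : Sl) (ca cb : Bool) (s : Sl) : List Lt :=
  FreeGroup.invRev (gword b2 a2 b1 a1 ca cb s)

/-- The slot `s` belongs to an open curve. -/
def IsOpen (b2 a2 b1 a1 : Sl) (ca cb : Bool) (s : Sl) : Prop :=
  ((s = a1 ∨ s = a2) ∧ ca = false) ∨ ((s = b1 ∨ s = b2) ∧ cb = false)

theorem iword_ne {b2 a2 b1 a1 : Sl} (h : [b2, a2, b1, a1].Nodup) {ca cb : Bool} {s : Sl}
    (hs : IsOpen b2 a2 b1 a1 ca cb s) : iword b2 a2 b1 a1 ca cb s ≠ [] := by
  simp only [List.nodup_cons, List.mem_cons, List.not_mem_nil, or_false, not_or, not_false_eq_true,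
    List.nodup_nil, and_true] at h
  obtain ⟨⟨h1, h2, h3⟩, ⟨h4, h5⟩, h6⟩ := h
  unfold iword
  rcases hs with ⟨rfl | rfl, rfl⟩ | ⟨rfl | rfl, rfl⟩ <;>
    first
      | (cases ca <;> simp [gword, FreeGroup.invRev, h1, h2, h3, h4, h5, h6, Ne.symm h1, Ne.symm h2,
          Ne.symm h3, Ne.symm h4, Ne.symm h5, Ne.symm h6])
      | (cases cb <;> simp [gword, FreeGroup.invRev, h1, h2, h3, h4, h5, h6, Ne.symm h1, Ne.symm h2,
          Ne.symm h3, Ne.symm h4, Ne.symm h5, Ne.symm h6])

/-- the word has the form of one letter, or of three letters -/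
theorem iword_cases {b2 a2 b1 a1 : Sl} (h : [b2, a2, b1, a1].Nodup) {ca cb : Bool} {s : Sl}
    (hs : IsOpen b2 a2 b1 a1 ca cb s) :
    (iword b2 a2 b1 a1 ca cb s = [(s, false)] ∧ (s = b2 ∨ s = a2 ∨ s = b1) ∧
      (s = b2 → ca = false) ∧ (s = a2 → ca = false) ∧ (s = b1 → cb = false)) ∨
    (iword b2 a2 b1 a1 ca cb s = [(b2, true), (a2, true), (b1, true)] ∧ s = a1 ∧
      ca = false ∧ cb = false) ∨
    (iword b2 a2 b1 a1 ca cb s = [(a1, false), (b1, true), (a1, true)] ∧ s = b2 ∧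
      ca = true ∧ cb = false) ∨
    (iword b2 a2 b1 a1 ca cb s = [(b1, false), (a2, true), (b1, true)] ∧ s = a1 ∧
      ca = false ∧ cb = true) := by
  simp only [List.nodup_cons, List.mem_cons, List.not_mem_nil, or_false, not_or, not_false_eq_true,
    List.nodup_nil, and_true] at h
  obtain ⟨⟨h1, h2, h3⟩, ⟨h4, h5⟩, h6⟩ := h
  unfold iword
  rcases hs with ⟨rfl | rfl, rfl⟩ | ⟨rfl | rfl, rfl⟩
  · cases cb <;> simp [gword, FreeGroup.invRev]
  · cases cb <;> simp [gword, FreeGroup.invRev, h1, h2, h3, h4, h5, h6, Ne.symm h1, Ne.symm h2,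
          Ne.symm h3, Ne.symm h4, Ne.symm h5, Ne.symm h6]
  · cases ca <;> simp [gword, FreeGroup.invRev, h1, h2, h3, h4, h5, h6, Ne.symm h1, Ne.symm h2,
          Ne.symm h3, Ne.symm h4, Ne.symm h5, Ne.symm h6]
  · cases ca <;> simp [gword, FreeGroup.invRev, h1, h2, h3, h4, h5, h6, Ne.symm h1, Ne.symm h2,
          Ne.symm h3, Ne.symm h4, Ne.symm h5, Ne.symm h6]

/-- the word of a passage is reduced -/
theorem iword_red {b2 a2 b1 a1 : Sl} (h : [b2, a2, b1, a1].Nodup) {ca cb : Bool} {s : Sl}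
    (hs : IsOpen b2 a2 b1 a1 ca cb s) (l₁ l₂ : List Lt) (x : Lt) :
    iword b2 a2 b1 a1 ca cb s ≠ l₁ ++ x :: (x.1, !x.2) :: l₂ := by
  have h' := h
  simp only [List.nodup_cons, List.mem_cons, List.not_mem_nil, or_false, not_or, not_false_eq_true,
    List.nodup_nil, and_true] at h'
  obtain ⟨⟨h1, h2, h3⟩, ⟨h4, h5⟩, h6⟩ := h'
  intro he
  obtain ⟨x1, x2⟩ := x
  rcases iword_cases h hs with ⟨e, -⟩ | ⟨e, -⟩ | ⟨e, -⟩ | ⟨e, -⟩ <;> rw [e] at he <;>
    rcases l₁ with _ | ⟨y, _ | ⟨z, _ | ⟨w, l⟩⟩⟩ <;>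
    simp_all

/-- The last letter of the word of `s` and the first letter of the word of `s'` cancel only if `s = s'`
or `(s', s)` is cyclically consecutive. -/
theorem iword_cancel {b2 a2 b1 a1 : Sl} (h : [b2, a2, b1, a1].Nodup) {ca cb : Bool} {s s' : Sl}
    (hs : IsOpen b2 a2 b1 a1 ca cb s) (hs' : IsOpen b2 a2 b1 a1 ca cb s') {l₁ l₂ : List Lt} {x : Lt}
    (e1 : iword b2 a2 b1 a1 ca cb s = l₁ ++ [x])
    (e2 : iword b2 a2 b1 a1 ca cb s' = (x.1, !x.2) :: l₂) :
    s = s' ∨ (s' = a1 ∧ s = b2) ∨ (s' = b1 ∧ s = a1) := by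
  have h' := h
  simp only [List.nodup_cons, List.mem_cons, List.not_mem_nil, or_false, not_or, not_false_eq_true,
    List.nodup_nil, and_true] at h'
  obtain ⟨⟨h1, h2, h3⟩, ⟨h4, h5⟩, h6⟩ := h'
  obtain ⟨x1, x2⟩ := x
  have e1' := congrArg List.getLast? e1
  have e2' := congrArg List.head? e2
  rw [List.getLast?_append] at e1'
  simp only [List.head?_cons] at e2'
  clear e1 e2
  rcases iword_cases h hs with ⟨e, hh⟩ | ⟨e, hh⟩ | ⟨e, hh⟩ | ⟨e, hh⟩ <;>
    rcases iword_cases h hs' with ⟨e', hh'⟩ | ⟨e', hh'⟩ | ⟨e', hh'⟩ | ⟨e', hh'⟩ <;>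
    rw [e] at e1' <;> rw [e'] at e2' <;> simp_all

/-- cancellation in a concatenation of words -/
theorem flat_cancel {α β : Type} (w : α → List β) (x y : β) : ∀ (l : List α) (L₁ L₂ : List β),
    (∀ p ∈ l, w p ≠ []) → l.flatMap w = L₁ ++ x :: y :: L₂ →
    (∃ p ∈ l, ∃ l₁ l₂, w p = l₁ ++ x :: y :: l₂) ∨
    ∃ a c p r, l = a ++ p :: r :: c ∧ (∃ l₁, w p = l₁ ++ [x]) ∧ ∃ l₂, w r = y :: l₂ := by
  intro l
  induction l with
  | nil =>
    intro L₁ L₂ _ h
    simp at h
  | cons p l ih =>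
    intro L₁ L₂ hne h
    rw [List.flatMap_cons] at h
    rcases List.append_eq_append_iff.1 h with ⟨t, h1, h2⟩ | ⟨t, h1, h2⟩
    · -- the pair is behind the first word
      rcases ih t L₂ (fun q hq => hne q (by simp [hq])) h2 with ⟨q, hq, l₁, l₂, h3⟩ |
        ⟨a, c, p', r, h3, h4, h5⟩
      · exact Or.inl ⟨q, by simp [hq], l₁, l₂, h3⟩
      · exact Or.inr ⟨p :: a, c, p', r, by rw [h3]; rfl, h4, h5⟩
    · -- the first word is `L₁ ++ t`
      rcases t with _ | ⟨x', t⟩
      · simp only [List.nil_append] at h2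
        rcases ih [] L₂ (fun q hq => hne q (by simp [hq])) (by simpa using h2.symm) with
          ⟨q, hq, l₁, l₂, h3⟩ | ⟨a, c, p', r, h3, h4, h5⟩
        · exact Or.inl ⟨q, by simp [hq], l₁, l₂, h3⟩
        · exact Or.inr ⟨p :: a, c, p', r, by rw [h3]; rfl, h4, h5⟩
      · simp only [List.cons_append, List.cons.injEq] at h2
        obtain ⟨rfl, h2⟩ := h2
        rcases t with _ | ⟨y', t⟩
        · -- the pair is between two words
          simp only [List.nil_append] at h2
          rcases l with _ | ⟨r, l⟩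
          · simp at h2
          · right
            rw [List.flatMap_cons] at h2
            rcases hr : w r with _ | ⟨y', l₂⟩
            · exact absurd hr (hne r (by simp))
            · rw [hr] at h2
              simp only [List.cons_append, List.cons.injEq] at h2
              obtain ⟨rfl, -⟩ := h2
              exact ⟨[], l, p, r, rfl, ⟨L₁, h1⟩, ⟨l₂, hr⟩⟩
        · simp only [List.cons_append, List.cons.injEq] at h2
          obtain ⟨rfl, h2⟩ := h2
          exact Or.inl ⟨p, by simp, L₁, t, h1⟩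

end Pool.Agent.Y475.TP
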