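import Pool.Agent.Y874.TP.Stm
import Pool.Agent.Y475.TP.JuncA

/-!
# There is a pair of neighbouring passages which cancel or belong to a corner of a triple point
-/

set_option autoImplicit false

namespace Pool.Agent.Y475.TP

open Pool.Agent.Y468.SR Pool.Agent.Y874.TP

/-- the slot of a passage -/
def slot (p : Pass) : Sl := (p.crossing, p.isOver)

/-- the circles -/
def circ (Ts : List Tri) : List (List Pass) := Ts.flatMap fun T => [T.wi, T.wj, T.wk]

theorem passes_TC (Ts : List Tri) : passes (TC Ts) = (circ Ts).flatten := by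
  induction Ts with
  | nil => rfl
  | cons T Ts ih =>
    have h1 : TC (T :: Ts) = T.code ++ TC Ts := by simp [TC]
    have h2 : circ (T :: Ts) = [T.wi, T.wj, T.wk] ++ circ Ts := by simp [circ]
    rw [h1, h2, passes_append, ih, List.flatten_append]
    simp [Tri.code, passes]

/-- the crossing belongs to a circle -/
def InC (Ts : List Tri) (c : ℕ) : Prop := ∃ r ∈ passes (TC Ts), r.crossing = c

/-- the crossing belongs to the diagram -/
def InD (D : Code) (c : ℕ) : Prop := ∃ r ∈ passes D, r.crossing = c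

/-- closed or open curve -/
def CO (D : Code) (m : ℕ → ℕ) (x y : ℕ) : Prop :=
  (m x = y ∧ m y = x) ∨ (InD D (m x) ∧ InD D (m y))

/-- a circle: closed and open curves -/
def CW (D : Code) (m : ℕ → ℕ) (W : List Pass) : Prop :=
  ∃ b2 a2 b1 a1 : Pass, W = [b2, a2, b1, a1] ∧ a1.isOver = a2.isOver ∧ b1.isOver = b2.isOver ∧
    CO D m a1.crossing a2.crossing ∧ CO D m b1.crossing b2.crossing

/-- the three curves of a triple point -/
def curves (T : Tri) : List (ℕ × ℕ) := [(T.a₁, T.a₂), (T.b₁, T.b₂), (T.c₁, T.c₂)]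

theorem mem_tri_crossing {T : Tri} {W : List Pass} (hW : W ∈ [T.wi, T.wj, T.wk]) {r : Pass}
    (hr : r ∈ W) : ∃ x ∈ curves T, r.crossing = x.1 ∨ r.crossing = x.2 := by
  simp only [List.mem_cons, List.not_mem_nil, or_false] at hW
  unfold curves
  rcases hW with rfl | rfl | rfl
  · unfold Tri.wi word4 at hr
    split_ifs at hr <;> simp only [List.mem_cons, List.not_mem_nil, or_false] at hr <;>
      rcases hr with rfl | rfl | rfl | rfl <;>
      simp [Tri.pa₁, Tri.pa₂, Tri.pb₁, Tri.pb₂, Tri.pc₁, Tri.pc₂, Pass.mate]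
  · unfold Tri.wj word4 at hr
    split_ifs at hr <;> simp only [List.mem_cons, List.not_mem_nil, or_false] at hr <;>
      rcases hr with rfl | rfl | rfl | rfl <;>
      simp [Tri.pa₁, Tri.pa₂, Tri.pb₁, Tri.pb₂, Tri.pc₁, Tri.pc₂, Pass.mate]
  · unfold Tri.wk word4 at hr
    split_ifs at hr <;> simp only [List.mem_cons, List.not_mem_nil, or_false] at hr <;>
      rcases hr with rfl | rfl | rfl | rfl <;>
      simp [Tri.pa₁, Tri.pa₂, Tri.pb₁, Tri.pb₂, Tri.pc₁, Tri.pc₂, Pass.mate]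

/-- both slots of both crossings of each curve are on circles -/
theorem slots_tri {T : Tri} {x : ℕ × ℕ} (hx : x ∈ curves T) (τ : Bool) :
    (∃ W ∈ [T.wi, T.wj, T.wk], ∃ r ∈ W, slot r = (x.1, τ)) ∧
    ∃ W ∈ [T.wi, T.wj, T.wk], ∃ r ∈ W, slot r = (x.2, τ) := by
  unfold curves at hx
  simp only [List.mem_cons, List.not_mem_nil, or_false] at hx
  have e4 : ∀ (e : Bool) (p₁ p₂ q₁ q₂ r : Pass), r ∈ word4 e p₁ p₂ q₁ q₂ ↔
      (r = p₁ ∨ r = p₂ ∨ r = q₁ ∨ r = q₂) := by
    intro e p₁ p₂ q₁ q₂ r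
    unfold word4
    split_ifs <;> simp only [List.mem_cons, List.not_mem_nil, or_false] <;> tauto
  rcases hx with rfl | rfl | rfl
  · by_cases h : τ = T.ta
    · subst h
      exact ⟨⟨T.wi, by simp, T.pa₁, (e4 _ _ _ _ _ _).2 (Or.inl rfl), rfl⟩,
        ⟨T.wi, by simp, T.pa₂, (e4 _ _ _ _ _ _).2 (Or.inr (Or.inl rfl)), rfl⟩⟩
    · have h' : τ = !T.ta := by cases τ <;> cases hh : T.ta <;> simp_all
      subst h'
      exact ⟨⟨T.wj, by simp, T.pa₁.mate, (e4 _ _ _ _ _ _).2 (Or.inl rfl), rfl⟩,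
        ⟨T.wj, by simp, T.pa₂.mate, (e4 _ _ _ _ _ _).2 (Or.inr (Or.inl rfl)), rfl⟩⟩
  · by_cases h : τ = T.tb
    · subst h
      exact ⟨⟨T.wi, by simp, T.pb₁, (e4 _ _ _ _ _ _).2 (Or.inr (Or.inr (Or.inl rfl))), rfl⟩,
        ⟨T.wi, by simp, T.pb₂, (e4 _ _ _ _ _ _).2 (Or.inr (Or.inr (Or.inr rfl))), rfl⟩⟩
    · have h' : τ = !T.tb := by cases τ <;> cases hh : T.tb <;> simp_all
      subst h'
      exact ⟨⟨T.wk, by simp, T.pb₁.mate, (e4 _ _ _ _ _ _).2 (Or.inl rfl), rfl⟩,
        ⟨T.wk, by simp, T.pb₂.mate, (e4 _ _ _ _ _ _).2 (Or.inr (Or.inl rfl)), rfl⟩⟩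
  · by_cases h : τ = T.tc
    · subst h
      exact ⟨⟨T.wj, by simp, T.pc₁, (e4 _ _ _ _ _ _).2 (Or.inr (Or.inr (Or.inl rfl))), rfl⟩,
        ⟨T.wj, by simp, T.pc₂, (e4 _ _ _ _ _ _).2 (Or.inr (Or.inr (Or.inr rfl))), rfl⟩⟩
    · have h' : τ = !T.tc := by cases τ <;> cases hh : T.tc <;> simp_all
      subst h'
      exact ⟨⟨T.wk, by simp, T.pc₁.mate, (e4 _ _ _ _ _ _).2 (Or.inr (Or.inr (Or.inl rfl))), rfl⟩,
        ⟨T.wk, by simp, T.pc₂.mate, (e4 _ _ _ _ _ _).2 (Or.inr (Or.inr (Or.inr rfl))), rfl⟩⟩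

/-- the hypotheses -/
structure Ctx (D : Code) (Ts : List Tri) (m : ℕ → ℕ) : Prop where
  wf : WF (passes (D ++ TC Ts))
  hm : Matching (passes (D ++ TC Ts)) m
  cm : CM (passes (D ++ TC Ts)) m
  col : ∀ T ∈ Ts, T.Col
  c0 : ∀ c ∈ Ts.flatMap Tri.cols, c ≠ 0
  nd : (Ts.flatMap Tri.cols).Nodup

section
variable {D : Code} {Ts : List Tri} {m : ℕ → ℕ}

theorem mem_circ {W : List Pass} : W ∈ circ Ts ↔ ∃ T ∈ Ts, W ∈ [T.wi, T.wj, T.wk] := by
  unfold circ
  rw [List.mem_flatMap]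

theorem mem_passes_TC {r : Pass} : r ∈ passes (TC Ts) ↔ ∃ W ∈ circ Ts, r ∈ W := by
  rw [passes_TC, List.mem_flatten]

theorem mem_P {r : Pass} : r ∈ passes (D ++ TC Ts) ↔ r ∈ passes D ∨ r ∈ passes (TC Ts) := by
  rw [passes_append, List.mem_append]

theorem nodup_slot (h : Ctx D Ts m) : ((passes D ++ passes (TC Ts)).map slot).Nodup := by
  have := h.wf.2
  rw [passes_append] at this
  exact this

theorem eq_of_slot (h : Ctx D Ts m) {r r' : Pass} (hr : r ∈ passes (D ++ TC Ts))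
    (hr' : r' ∈ passes (D ++ TC Ts)) (e : slot r = slot r') : r = r' :=
  List.inj_on_of_nodup_map h.wf.2 hr hr' e

theorem uniqW (h : Ctx D Ts m) {W W' : List Pass} (hW : W ∈ circ Ts) (hW' : W' ∈ circ Ts)
    {r r' : Pass} (hr : r ∈ W) (hr' : r' ∈ W') (e : slot r = slot r') : W = W' := by
  have h1 : r = r' := eq_of_slot h (mem_P.2 (Or.inr (mem_passes_TC.2 ⟨W, hW, hr⟩)))
    (mem_P.2 (Or.inr (mem_passes_TC.2 ⟨W', hW', hr'⟩))) e
  subst h1
  have h2 : (passes (TC Ts)).Nodup := by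
    have := WF.nodup h.wf
    rw [passes_append] at this
    exact (List.nodup_append.1 this).2.1
  rw [passes_TC, List.nodup_flatten] at h2
  by_contra hne
  haveI : Std.Symm (List.Disjoint (α := Pass)) := ⟨fun _ _ hd => List.Disjoint.symm hd⟩
  have h3 := h2.2.forall hW hW' hne
  exact h3 hr hr'

theorem nodupW (h : Ctx D Ts m) {W : List Pass} (hW : W ∈ circ Ts) : (W.map slot).Nodup := by
  have h1 := nodup_slot h
  rw [List.map_append] at h1
  have h2 := (List.nodup_append.1 h1).2.1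
  rw [passes_TC, List.map_flatten, List.nodup_flatten] at h2
  exact h2.1 _ (List.mem_map_of_mem hW)

theorem slot_mem {c : ℕ} (hc : InC Ts c) (τ : Bool) : ∃ W ∈ circ Ts, ∃ r ∈ W, slot r = (c, τ) := by
  obtain ⟨r, hr, rfl⟩ := hc
  obtain ⟨W, hW, hrW⟩ := mem_passes_TC.1 hr
  obtain ⟨T, hT, hWT⟩ := mem_circ.1 hW
  obtain ⟨x, hx, h1⟩ := mem_tri_crossing hWT hrW
  obtain ⟨h2, h3⟩ := slots_tri hx τ
  rcases h1 with h1 | h1 <;> rw [h1]
  · obtain ⟨W', hW', r', hr', e⟩ := h2
    exact ⟨W', mem_circ.2 ⟨T, hT, hW'⟩, r', hr', e⟩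
  · obtain ⟨W', hW', r', hr', e⟩ := h3
    exact ⟨W', mem_circ.2 ⟨T, hT, hW'⟩, r', hr', e⟩

/-- the crossings of the diagram and of the circles are different -/
theorem disj (h : Ctx D Ts m) {c : ℕ} (h1 : InD D c) (h2 : InC Ts c) : False := by
  obtain ⟨r, hr, rfl⟩ := h1
  obtain ⟨W, hW, r', hr', e⟩ := slot_mem h2 r.isOver
  have h3 : r' ∈ passes (TC Ts) := mem_passes_TC.2 ⟨W, hW, hr'⟩
  have h4 : r' = r := eq_of_slot h (mem_P.2 (Or.inr h3)) (mem_P.2 (Or.inl hr)) e
  subst h4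
  have h5 := WF.nodup h.wf
  rw [passes_append] at h5
  exact (List.nodup_append.1 h5).2.2 _ hr _ h3 rfl

theorem col_curve (h : Ctx D Ts m) {T : Tri} (hT : T ∈ Ts) {x : ℕ × ℕ} (hx : x ∈ curves T) :
    colour x.2 = colour x.1 ∧ colour x.1 ∈ T.cols := by
  obtain ⟨h1, h2, h3⟩ := h.col T hT
  unfold curves at hx
  simp only [List.mem_cons, List.not_mem_nil, or_false] at hx
  rcases hx with rfl | rfl | rfl
  · exact ⟨h1, by simp [Tri.cols]⟩
  · exact ⟨h2, by simp [Tri.cols]⟩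
  · exact ⟨h3, by simp [Tri.cols]⟩

/-- a crossing of a circle with the colour of a curve belongs to this curve -/
theorem same_curve (h : Ctx D Ts m) {T : Tri} (hT : T ∈ Ts) {x : ℕ × ℕ} (hx : x ∈ curves T)
    {r : Pass} (hr : r ∈ passes (TC Ts)) (hc : colour r.crossing = colour x.1) :
    r.crossing = x.1 ∨ r.crossing = x.2 := by
  obtain ⟨W, hW, hrW⟩ := mem_passes_TC.1 hr
  obtain ⟨T', hT', hWT⟩ := mem_circ.1 hW
  obtain ⟨y, hy, h1⟩ := mem_tri_crossing hWT hrW
  obtain ⟨h2, h3⟩ := col_curve h hT hx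
  obtain ⟨h4, h5⟩ := col_curve h hT' hy
  have h6 : colour y.1 = colour x.1 := by
    rcases h1 with h1 | h1
    · rw [← hc, h1]
    · rw [← hc, h1, h4]
  have hnd := List.nodup_flatMap.1 h.nd
  have h7 : T' = T := by
    by_contra hne
    haveI : Std.Symm (Function.onFun List.Disjoint Tri.cols) :=
      ⟨fun _ _ hd => List.Disjoint.symm hd⟩
    have := hnd.2.forall hT' hT hne
    exact this h5 (by rw [h6]; exact h3)
  subst h7
  have h8 := hnd.1 T' hT
  have h9 : y = x := by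
    unfold curves at hx hy
    unfold Tri.cols at h8
    simp only [List.nodup_cons, List.mem_cons, List.not_mem_nil, or_false, not_or,
      not_false_eq_true, List.nodup_nil, and_true] at h8
    simp only [List.mem_cons, List.not_mem_nil, or_false] at hx hy
    rcases hx with rfl | rfl | rfl <;> rcases hy with rfl | rfl | rfl <;> simp_all
  rw [← h9]
  exact h1

theorem pass_of_curve {T : Tri} (hT : T ∈ Ts) {x : ℕ × ℕ} (hx : x ∈ curves T) :
    InC Ts x.1 ∧ InC Ts x.2 := by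
  obtain ⟨⟨W, hW, r, hr, e⟩, ⟨W', hW', r', hr', e'⟩⟩ := slots_tri hx true
  exact ⟨⟨r, mem_passes_TC.2 ⟨W, mem_circ.2 ⟨T, hT, hW⟩, hr⟩, congrArg Prod.fst e⟩,
    ⟨r', mem_passes_TC.2 ⟨W', mem_circ.2 ⟨T, hT, hW'⟩, hr'⟩, congrArg Prod.fst e'⟩⟩

/-- the partner of a crossing of a circle -/
theorem partner (h : Ctx D Ts m) {T : Tri} (hT : T ∈ Ts) {x : ℕ × ℕ} (hx : x ∈ curves T) {c : ℕ}
    (hc : InC Ts c) (hcx : c = x.1 ∨ c = x.2) :
    m (m c) = c ∧ m c ≠ c ∧ (InD D (m c) ∨ (m c = x.1 ∨ m c = x.2)) := by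
  obtain ⟨r, hr, rfl⟩ := hc
  have hrP : r ∈ passes (D ++ TC Ts) := mem_P.2 (Or.inr hr)
  obtain ⟨h1, h2⟩ := col_curve h hT hx
  have h3 : colour r.crossing = colour x.1 := by
    rcases hcx with e | e <;> rw [e]
    exact h1
  have h4 : colour r.crossing ≠ 0 := by
    rw [h3]
    exact h.c0 _ (List.mem_flatMap.2 ⟨T, hT, h2⟩)
  obtain ⟨h5, h6⟩ := h.cm r hrP
  refine ⟨matching_invol h.hm hrP, h6 h4, ?_⟩
  obtain ⟨q, hq, e1, e2, -⟩ := h.hm r hrP
  rcases mem_P.1 hq with hqD | hqC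
  · exact Or.inl ⟨q, hqD, e1⟩
  · right
    have := same_curve h hT hx hqC (by rw [e1, h5, h3])
    rwa [e1] at this

theorem co_curve (h : Ctx D Ts m) {T : Tri} (hT : T ∈ Ts) {x : ℕ × ℕ} (hx : x ∈ curves T) :
    CO D m x.1 x.2 := by
  obtain ⟨i1, i2⟩ := pass_of_curve hT hx
  obtain ⟨p1, p2, p3⟩ := partner h hT hx i1 (Or.inl rfl)
  obtain ⟨q1, q2, q3⟩ := partner h hT hx i2 (Or.inr rfl)
  rcases p3 with p3 | p3 | p3
  · rcases q3 with q3 | q3 | q3
    · exact Or.inr ⟨p3, q3⟩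
    · exfalso
      rw [← q3, q1] at p3
      exact disj h p3 i2
    · exact absurd q3 q2
  · exact absurd p3 p2
  · refine Or.inl ⟨p3, ?_⟩
    rw [← p3, p1]

theorem CO.symm' {x y : ℕ} (h : CO D m x y) : CO D m y x := by
  rcases h with ⟨h1, h2⟩ | ⟨h1, h2⟩
  · exact Or.inl ⟨h2, h1⟩
  · exact Or.inr ⟨h2, h1⟩

theorem cw (h : Ctx D Ts m) {W : List Pass} (hW : W ∈ circ Ts) : CW D m W := by
  obtain ⟨T, hT, hW⟩ := mem_circ.1 hW
  have ha := co_curve h hT (x := (T.a₁, T.a₂)) (by simp [curves])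
  have hb := co_curve h hT (x := (T.b₁, T.b₂)) (by simp [curves])
  have hc := co_curve h hT (x := (T.c₁, T.c₂)) (by simp [curves])
  simp only [List.mem_cons, List.not_mem_nil, or_false] at hW
  rcases hW with rfl | rfl | rfl
  · unfold Tri.wi word4
    split_ifs
    · exact ⟨_, _, _, _, rfl, rfl, rfl, ha, hb⟩
    · exact ⟨_, _, _, _, rfl, rfl, rfl, hb, ha⟩
  · unfold Tri.wj word4
    split_ifs
    · exact ⟨_, _, _, _, rfl, rfl, rfl, ha, hc⟩
    · exact ⟨_, _, _, _, rfl, rfl, rfl, hc, ha⟩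
  · unfold Tri.wk word4
    split_ifs
    · exact ⟨_, _, _, _, rfl, rfl, rfl, hb, hc⟩
    · exact ⟨_, _, _, _, rfl, rfl, rfl, hc, hb⟩

/-! ### The labels -/

/-- the labels on one circle -/
def gW (m : ℕ → ℕ) (W : List Pass) (s : Sl) : List Lt :=
  match W with
  | [b2, a2, b1, a1] => gword (slot b2) (slot a2) (slot b1) (slot a1)
      (decide (m a1.crossing = a2.crossing)) (decide (m b1.crossing = b2.crossing)) s
  | _ => []

open Classical in
/-- the labels on the circles -/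
noncomputable def GG (m : ℕ → ℕ) (Ts : List Tri) (s : Sl) : List Lt :=
  if h : ∃ W ∈ circ Ts, ∃ r ∈ W, slot r = s then gW m h.choose s else []

theorem GG_eq (h : Ctx D Ts m) {W : List Pass} (hW : W ∈ circ Ts) {r : Pass} (hr : r ∈ W) :
    GG m Ts (slot r) = gW m W (slot r) := by
  have hex : ∃ W ∈ circ Ts, ∃ r' ∈ W, slot r' = slot r := ⟨W, hW, r, hr, rfl⟩
  unfold GG
  rw [dif_pos hex]
  obtain ⟨h1, r', h2, h3⟩ := hex.choose_spec
  rw [uniqW h h1 hW h2 hr h3]

open Classical in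
/-- the words of the passages -/
noncomputable def lab (m : ℕ → ℕ) (Ts : List Tri) (c : ℕ) (τ : Bool) : List Lt :=
  if InC Ts c then GG m Ts (c, τ) else
    if InC Ts (m c) then FreeGroup.invRev (GG m Ts (m c, τ)) else [letter m ⟨c, τ, true⟩]

/-- labels of the overpassages -/
noncomputable def Lo (m : ℕ → ℕ) (Ts : List Tri) (c : ℕ) : FreeGroup (ℕ × Bool) :=
  FreeGroup.mk (lab m Ts c true)

/-- labels of the underpassages -/
noncomputable def Lu (m : ℕ → ℕ) (Ts : List Tri) (c : ℕ) : FreeGroup (ℕ × Bool) :=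
  FreeGroup.mk (lab m Ts c false)

theorem val_L (p : Pass) : val (Lo m Ts) (Lu m Ts) p =
    FreeGroup.mk (lab m Ts p.crossing p.isOver) := by
  obtain ⟨c, τ, s⟩ := p
  cases τ <;> rfl

theorem wval_L (w : List Pass) : wval (Lo m Ts) (Lu m Ts) w =
    FreeGroup.mk (w.flatMap fun p => lab m Ts p.crossing p.isOver) := by
  induction w with
  | nil => rfl
  | cons p w ih => rw [wval_cons, ih, val_L, List.flatMap_cons, FreeGroup.mul_mk]

/-- both ends of a closed curve -/
theorem closed_inv (h : Ctx D Ts m) {c : ℕ} (hc : InC Ts c) (hc' : InC Ts (m c)) (τ : Bool) :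
    FreeGroup.mk (GG m Ts (m c, τ)) = (FreeGroup.mk (GG m Ts (c, τ)))⁻¹ := by
  obtain ⟨W, hW, r, hr, e⟩ := slot_mem hc τ
  have hn := nodupW h hW
  obtain ⟨b2, a2, b1, a1, rfl, ho1, ho2, hco1, hco2⟩ := cw h hW
  simp only [List.map_cons, List.map_nil] at hn
  have hcr : r.crossing = c := congrArg Prod.fst e
  have hor : r.isOver = τ := congrArg Prod.snd e
  subst hcr
  subst hor
  simp only [List.mem_cons, List.not_mem_nil, or_false] at hr
  rcases hr with rfl | rfl | rfl | rfl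
  · -- `r = b2`
    rcases hco2 with ⟨e1, e2⟩ | ⟨e1, e2⟩
    · have e3 : (m r.crossing, r.isOver) = slot b1 := by rw [e2, ← ho2]; rfl
      have e4 : (r.crossing, r.isOver) = slot r := rfl
      rw [e3, e4, GG_eq h hW (r := b1) (by simp), GG_eq h hW (r := r) (by simp)]
      simp only [gW, e1, decide_true]
      exact gword_cb hn _
    · exact absurd hc' (fun h' => disj h e2 h')
  · -- `r = a2`
    rcases hco1 with ⟨e1, e2⟩ | ⟨e1, e2⟩
    · have e3 : (m r.crossing, r.isOver) = slot a1 := by rw [e2, ← ho1]; rfl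
      have e4 : (r.crossing, r.isOver) = slot r := rfl
      rw [e3, e4, GG_eq h hW (r := a1) (by simp), GG_eq h hW (r := r) (by simp)]
      simp only [gW, e1, decide_true]
      exact gword_ca hn _
    · exact absurd hc' (fun h' => disj h e2 h')
  · -- `r = b1`
    rcases hco2 with ⟨e1, e2⟩ | ⟨e1, e2⟩
    · have e3 : (m r.crossing, r.isOver) = slot b2 := by rw [e1, ho2]; rfl
      have e4 : (r.crossing, r.isOver) = slot r := rfl
      rw [e3, e4, GG_eq h hW (r := b2) (by simp), GG_eq h hW (r := r) (by simp)]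
      simp only [gW, e1, decide_true]
      rw [gword_cb hn, inv_inv]
    · exact absurd hc' (fun h' => disj h e1 h')
  · -- `r = a1`
    rcases hco1 with ⟨e1, e2⟩ | ⟨e1, e2⟩
    · have e3 : (m r.crossing, r.isOver) = slot a2 := by rw [e1, ho1]; rfl
      have e4 : (r.crossing, r.isOver) = slot r := rfl
      rw [e3, e4, GG_eq h hW (r := a2) (by simp), GG_eq h hW (r := r) (by simp)]
      simp only [gW, e1, decide_true]
      rw [gword_ca hn, inv_inv]
    · exact absurd hc' (fun h' => disj h e1 h')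

theorem lab_inv (h : Ctx D Ts m) {p : Pass} (hp : p ∈ passes (D ++ TC Ts))
    (hne : m p.crossing ≠ p.crossing) (τ : Bool) :
    FreeGroup.mk (lab m Ts (m p.crossing) τ) = (FreeGroup.mk (lab m Ts p.crossing τ))⁻¹ := by
  have hi := matching_invol h.hm hp
  unfold lab
  by_cases h1 : InC Ts p.crossing
  · by_cases h2 : InC Ts (m p.crossing)
    · rw [if_pos h1, if_pos h2]
      exact closed_inv h h1 h2 τ
    · rw [if_pos h1, if_neg h2, hi, if_pos h1, FreeGroup.inv_mk]
  · by_cases h2 : InC Ts (m p.crossing)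
    · rw [if_neg h1, if_pos h2, if_pos h2, FreeGroup.inv_mk, FreeGroup.invRev_invRev]
    · rw [if_neg h1, if_neg h2, if_neg h2, hi, if_neg h1]
      have h3 := (valid_letter h.hm p hp).2 hne
      cases τ
      · exact h3.2
      · exact h3.1

theorem validL (h : Ctx D Ts m) : Valid (passes (D ++ TC Ts)) m (Lo m Ts) (Lu m Ts) := by
  intro p hp
  refine ⟨fun h1 => ?_, fun h1 => ⟨lab_inv h hp h1 true, lab_inv h hp h1 false⟩⟩
  have h2 : ¬ InC Ts p.crossing := by
    intro hc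
    obtain ⟨r, hr, hrc⟩ := hc
    obtain ⟨W, hW, hrW⟩ := mem_passes_TC.1 hr
    obtain ⟨T, hT, hWT⟩ := mem_circ.1 hW
    obtain ⟨x, hx, h3⟩ := mem_tri_crossing hWT hrW
    exact (partner h hT hx ⟨r, hr, rfl⟩ h3).2.1 (by rw [hrc]; exact h1)
  have h3 := (valid_letter h.hm p hp).1 h1
  unfold Lo Lu lab
  rw [if_neg h2, if_neg h2, h1, if_neg h2, if_neg h2]
  exact h3

theorem wval_circ (h : Ctx D Ts m) {W : List Pass} (hW : W ∈ circ Ts) :
    wval (Lo m Ts) (Lu m Ts) W = 1 := by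
  have hn := nodupW h hW
  have h0 : ∀ r ∈ W, val (Lo m Ts) (Lu m Ts) r = FreeGroup.mk (gW m W (slot r)) := by
    intro r hr
    have hc : InC Ts r.crossing := ⟨r, mem_passes_TC.2 ⟨W, hW, hr⟩, rfl⟩
    rw [val_L]
    unfold lab
    rw [if_pos hc, ← GG_eq h hW hr]
    rfl
  obtain ⟨b2, a2, b1, a1, rfl, -, -, -, -⟩ := cw h hW
  simp only [List.map_cons, List.map_nil] at hn
  rw [wval_cons, wval_cons, wval_cons, wval_cons, wval_nil, h0 b2 (by simp), h0 a2 (by simp),
    h0 b1 (by simp), h0 a1 (by simp), mul_one, ← mul_assoc, ← mul_assoc]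
  simp only [gW]
  exact gword_prod hn _ _

/-! ### The words of the passages of the diagram -/

/-- description of the word of a passage matched with a circle -/
theorem word_circ (h : Ctx D Ts m) {p : Pass} (hp : p ∈ passes D) (hc : InC Ts (m p.crossing)) :
    ∃ b2 a2 b1 a1 : Pass, [b2, a2, b1, a1] ∈ circ Ts ∧
      (∃ r ∈ [b2, a2, b1, a1], slot r = (m p.crossing, p.isOver)) ∧
      IsOpen (slot b2) (slot a2) (slot b1) (slot a1) (decide (m a1.crossing = a2.crossing))
        (decide (m b1.crossing = b2.crossing)) (m p.crossing, p.isOver) ∧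
      lab m Ts p.crossing p.isOver = iword (slot b2) (slot a2) (slot b1) (slot a1)
        (decide (m a1.crossing = a2.crossing)) (decide (m b1.crossing = b2.crossing))
        (m p.crossing, p.isOver) := by
  have hpP : p ∈ passes (D ++ TC Ts) := mem_P.2 (Or.inl hp)
  have hi := matching_invol h.hm hpP
  have hpD : InD D p.crossing := ⟨p, hp, rfl⟩
  have hpC : ¬ InC Ts p.crossing := fun h' => disj h hpD h'
  obtain ⟨W, hW, r, hr, e⟩ := slot_mem hc p.isOver
  obtain ⟨b2, a2, b1, a1, rfl, ho1, ho2, hco1, hco2⟩ := cw h hW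
  have hrc : r.crossing = m p.crossing := congrArg Prod.fst e
  refine ⟨b2, a2, b1, a1, hW, ⟨r, hr, e⟩, ?_, ?_⟩
  · -- the curve is open
    have key : ∀ x y : ℕ, InC Ts x → InC Ts y → CO D m x y →
        (m p.crossing = x ∨ m p.crossing = y) → m x ≠ y := by
      intro x y hx hy hco hxy hxy'
      rcases hco with ⟨e1, e2⟩ | ⟨e1, e2⟩
      · rcases hxy with e3 | e3
        · have e4 : p.crossing = y := by rw [← hi, e3, e1]
          exact disj h hpD (by rw [e4]; exact hy)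
        · have e4 : p.crossing = x := by rw [← hi, e3, e2]
          exact disj h hpD (by rw [e4]; exact hx)
      · rw [hxy'] at e1
        exact disj h e1 hy
    have hin : ∀ r' ∈ [b2, a2, b1, a1], InC Ts r'.crossing := fun r' hr' =>
      ⟨r', mem_passes_TC.2 ⟨_, hW, hr'⟩, rfl⟩
    have ib2 := hin b2 (by simp)
    have ia2 := hin a2 (by simp)
    have ib1 := hin b1 (by simp)
    have ia1 := hin a1 (by simp)
    rw [← e]
    simp only [List.mem_cons, List.not_mem_nil, or_false] at hr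
    unfold IsOpen
    rcases hr with rfl | rfl | rfl | rfl
    · exact Or.inr ⟨Or.inr rfl, decide_eq_false (key _ _ ib1 ib2 hco2 (Or.inr hrc.symm))⟩
    · exact Or.inl ⟨Or.inr rfl, decide_eq_false (key _ _ ia1 ia2 hco1 (Or.inr hrc.symm))⟩
    · exact Or.inr ⟨Or.inl rfl, decide_eq_false (key _ _ ib1 ib2 hco2 (Or.inl hrc.symm))⟩
    · exact Or.inl ⟨Or.inl rfl, decide_eq_false (key _ _ ia1 ia2 hco1 (Or.inl hrc.symm))⟩
  · unfold lab
    rw [if_neg hpC, if_pos hc, ← e, GG_eq h hW hr]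
    rfl

theorem word_ord (h : Ctx D Ts m) {p : Pass} (hp : p ∈ passes D)
    (hc : ¬ InC Ts (m p.crossing)) : lab m Ts p.crossing p.isOver = [letter m p] := by
  have hpC : ¬ InC Ts p.crossing := fun h' => disj h ⟨p, hp, rfl⟩ h'
  unfold lab
  rw [if_neg hpC, if_neg hc]
  rfl

theorem letter_crossing (m : ℕ → ℕ) (p : Pass) :
    (letter m p).1.1 = p.crossing ∨ (letter m p).1.1 = m p.crossing := by
  unfold letter
  split_ifs
  · exact Or.inl rfl
  · exact Or.inl rfl
  · exact Or.inr rfl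

theorem iword_mem {b2 a2 b1 a1 : Sl} {ca cb : Bool} {s : Sl} (hs : s ∈ [b2, a2, b1, a1]) {x : Lt}
    (hx : x ∈ iword b2 a2 b1 a1 ca cb s) : x.1 ∈ [b2, a2, b1, a1] := by
  unfold iword FreeGroup.invRev at hx
  rw [List.mem_reverse, List.mem_map] at hx
  obtain ⟨y, hy, rfl⟩ := hx
  exact gword_mem (x := y) hs hy

theorem slot_list {b2 a2 b1 a1 : Pass} {s : Sl}
    (hs : s ∈ [slot b2, slot a2, slot b1, slot a1]) : ∃ r ∈ [b2, a2, b1, a1], slot r = s := by
  simp only [List.mem_cons, List.not_mem_nil, or_false] at hs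
  rcases hs with rfl | rfl | rfl | rfl
  · exact ⟨b2, by simp, rfl⟩
  · exact ⟨a2, by simp, rfl⟩
  · exact ⟨b1, by simp, rfl⟩
  · exact ⟨a1, by simp, rfl⟩

theorem list_slot {b2 a2 b1 a1 r : Pass} {s : Sl} (hr : r ∈ [b2, a2, b1, a1]) (e : slot r = s) :
    s ∈ [slot b2, slot a2, slot b1, slot a1] := by
  simp only [List.mem_cons, List.not_mem_nil, or_false] at hr ⊢
  rcases hr with rfl | rfl | rfl | rfl <;> simp [e]

theorem junction (h : Ctx D Ts m) {p r : Pass} (hp : p ∈ passes D) (hr : r ∈ passes D)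
    (hne : p ≠ r) {x : Lt} {l₁ l₂ : List Lt} (e1 : lab m Ts p.crossing p.isOver = l₁ ++ [x])
    (e2 : lab m Ts r.crossing r.isOver = (x.1, !x.2) :: l₂) :
    Canc m p r ∨ ∃ T ∈ Ts, ∃ W ∈ [T.wi, T.wj, T.wk], ∃ p' r' : Pass, Cyc r' p' W ∧
      p'.crossing = m p.crossing ∧ p'.isOver = p.isOver ∧
      r'.crossing = m r.crossing ∧ r'.isOver = r.isOver := by
  have hpP : p ∈ passes (D ++ TC Ts) := mem_P.2 (Or.inl hp)
  have hrP : r ∈ passes (D ++ TC Ts) := mem_P.2 (Or.inl hr)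
  have hip := matching_invol h.hm hpP
  have hir := matching_invol h.hm hrP
  by_cases hc : InC Ts (m p.crossing)
  · obtain ⟨b2, a2, b1, a1, hW, ⟨t, ht, et⟩, ho, hl⟩ := word_circ h hp hc
    have hx1 : x.1 ∈ [slot b2, slot a2, slot b1, slot a1] := by
      apply iword_mem (list_slot ht et) (x := x)
      rw [← hl, e1]
      simp
    obtain ⟨z, hz, ez⟩ := slot_list hx1
    by_cases hc' : InC Ts (m r.crossing)
    · obtain ⟨b2', a2', b1', a1', hW', ⟨t', ht', et'⟩, ho', hl'⟩ := word_circ h hr hc'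
      have hx2 : x.1 ∈ [slot b2', slot a2', slot b1', slot a1'] := by
        apply iword_mem (list_slot ht' et') (x := (x.1, !x.2))
        rw [← hl', e2]
        simp
      obtain ⟨z', hz', ez'⟩ := slot_list hx2
      have hWW := uniqW h hW hW' hz hz' (by rw [ez, ez'])
      simp only [List.cons.injEq, and_true] at hWW
      obtain ⟨rfl, rfl, rfl, rfl⟩ := hWW
      have hn := nodupW h hW
      simp only [List.map_cons, List.map_nil] at hn
      obtain ⟨T, hT, hWT⟩ := mem_circ.1 hW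
      rcases iword_cancel hn ho ho' (hl.symm.trans e1) (hl'.symm.trans e2) with
        h5 | ⟨h5, h6⟩ | ⟨h5, h6⟩
      · exfalso
        simp only [Prod.mk.injEq] at h5
        apply hne
        apply eq_of_slot h hpP hrP
        unfold slot
        rw [← hip, ← hir, h5.1, h5.2]
      · right
        refine ⟨T, hT, _, hWT, b2, a1, Or.inr ⟨[a2, b1], rfl⟩, ?_, ?_, ?_, ?_⟩
        · exact (congrArg Prod.fst h6).symm
        · exact (congrArg Prod.snd h6).symm
        · exact (congrArg Prod.fst h5).symm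
        · exact (congrArg Prod.snd h5).symm
      · right
        refine ⟨T, hT, _, hWT, a1, b1, Or.inl ⟨[b2, a2], [], rfl⟩, ?_, ?_, ?_, ?_⟩
        · exact (congrArg Prod.fst h6).symm
        · exact (congrArg Prod.snd h6).symm
        · exact (congrArg Prod.fst h5).symm
        · exact (congrArg Prod.snd h5).symm
    · exfalso
      rw [word_ord h hr hc'] at e2
      simp only [List.cons.injEq] at e2
      have h6 : (letter m r).1.1 = x.1.1 := by rw [e2.1]
      have h7 : InC Ts x.1.1 := ⟨z, mem_passes_TC.2 ⟨_, hW, hz⟩, congrArg Prod.fst ez⟩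
      rcases letter_crossing m r with h8 | h8
      · exact disj h ⟨r, hr, rfl⟩ (by rw [← h8, h6]; exact h7)
      · exact hc' (by rw [← h8, h6]; exact h7)
  · rw [word_ord h hp hc] at e1
    have e3 : letter m p = x := by
      rcases l₁ with _ | ⟨y, l⟩
      · simpa using e1
      · have := congrArg List.length e1
        simp at this
    by_cases hc' : InC Ts (m r.crossing)
    · exfalso
      obtain ⟨b2', a2', b1', a1', hW', ⟨t', ht', et'⟩, ho', hl'⟩ := word_circ h hr hc'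
      have hx2 : x.1 ∈ [slot b2', slot a2', slot b1', slot a1'] := by
        apply iword_mem (list_slot ht' et') (x := (x.1, !x.2))
        rw [← hl', e2]
        simp
      obtain ⟨z', hz', ez'⟩ := slot_list hx2
      have h6 : (letter m p).1.1 = x.1.1 := by rw [e3]
      have h7 : InC Ts x.1.1 := ⟨z', mem_passes_TC.2 ⟨_, hW', hz'⟩, congrArg Prod.fst ez'⟩
      rcases letter_crossing m p with h8 | h8
      · exact disj h ⟨p, hp, rfl⟩ (by rw [← h8, h6]; exact h7)
      · exact hc (by rw [← h8, h6]; exact h7)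
    · left
      rw [word_ord h hr hc'] at e2
      simp only [List.cons.injEq] at e2
      have h1 : wval (fo m) (fu m) [p, r] = 1 := by
        rw [wval_letter]
        simp only [List.map_cons, List.map_nil]
        rw [e3, e2.1]
        apply Quot.sound
        exact FreeGroup.Red.Step.not (L₁ := []) (L₂ := []) (x := x.1) (b := x.2)
      obtain ⟨a, c, p', q', h2, h3⟩ := exists_factor h.hm (w := [p, r]) (by simp)
        (by
          intro q hq
          simp only [List.mem_cons, List.not_mem_nil, or_false] at hq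
          rcases hq with rfl | rfl
          · exact hpP
          · exact hrP) h1
      rcases a with _ | ⟨y, _ | ⟨y', a⟩⟩
      · simp only [List.nil_append, List.cons.injEq] at h2
        obtain ⟨rfl, rfl, -⟩ := h2
        exact h3
      · simp at h2
      · simp at h2

theorem word_ne (h : Ctx D Ts m) {p : Pass} (hp : p ∈ passes D) :
    lab m Ts p.crossing p.isOver ≠ [] := by
  by_cases hc : InC Ts (m p.crossing)
  · obtain ⟨b2, a2, b1, a1, hW, -, ho, hl⟩ := word_circ h hp hc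
    have hn := nodupW h hW
    simp only [List.map_cons, List.map_nil] at hn
    rw [hl]
    exact iword_ne hn ho
  · rw [word_ord h hp hc]
    simp

theorem word_red (h : Ctx D Ts m) {p : Pass} (hp : p ∈ passes D) (l₁ l₂ : List Lt) (x : Lt) :
    lab m Ts p.crossing p.isOver ≠ l₁ ++ x :: (x.1, !x.2) :: l₂ := by
  by_cases hc : InC Ts (m p.crossing)
  · obtain ⟨b2, a2, b1, a1, hW, -, ho, hl⟩ := word_circ h hp hc
    have hn := nodupW h hW
    simp only [List.map_cons, List.map_nil] at hn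
    rw [hl]
    exact iword_red hn ho l₁ l₂ x
  · rw [word_ord h hp hc]
    intro e
    have := congrArg List.length e
    simp at this
    omega

end

theorem cn_ones {G : Type} [Group G] {x : G} : ∀ {l : List G}, (∀ y ∈ l, y = 1) → CN (x :: l) →
    x = 1
  | [], _, h => CN.singleton.1 h
  | y :: l, hl, h => by
    have hy : y = 1 := hl y (by simp)
    subst hy
    exact cn_ones (fun z hz => hl z (by simp [hz]))
      (CN.one_cons.1 (CN.perm (List.Perm.swap _ _ _) h))

theorem junc : S_JUNC := by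
  intro D Ts m hD hwf hinv hcol h0 hnd hne
  have h : Ctx D Ts m := ⟨hwf, hinv.1, hinv.2.1, hcol, h0, hnd⟩
  by_contra hcon
  obtain ⟨q, hq⟩ := List.exists_mem_of_ne_nil _ hne
  obtain ⟨C, hC, hqC⟩ := mem_passes.1 hq
  have hC0 : C.1 ≠ [] := List.ne_nil_of_mem hqC
  have hCP : ∀ r ∈ C.1, r ∈ passes D := fun r hr => mem_passes.2 ⟨C, hC, hr⟩
  have hcn := hinv.2.2 _ (Lo m Ts) (Lu m Ts) (validL h) C.2
  have e1 : bv (vals (Lo m Ts) (Lu m Ts) (D ++ TC Ts)) C.2 =
      wval (Lo m Ts) (Lu m Ts) C.1 :: bv (vals (Lo m Ts) (Lu m Ts) (TC Ts)) C.2 := by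
    have e2 : bv (vals (Lo m Ts) (Lu m Ts) (D ++ TC Ts)) C.2 =
        bv (vals (Lo m Ts) (Lu m Ts) D) C.2 ++ bv (vals (Lo m Ts) (Lu m Ts) (TC Ts)) C.2 := by
      unfold bv vals
      simp
    rw [e2, bv_vals_singleton hD hC]
    rfl
  rw [e1] at hcn
  have hone : wval (Lo m Ts) (Lu m Ts) C.1 = 1 := by
    refine cn_ones ?_ hcn
    intro y hy
    simp only [bv, vals, List.mem_map, List.mem_filter] at hy
    obtain ⟨y', ⟨⟨C', hC', rfl⟩, -⟩, rfl⟩ := hy
    apply wval_circ h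
    unfold TC at hC'
    rw [List.mem_flatMap] at hC'
    obtain ⟨T, hT, hC'⟩ := hC'
    refine mem_circ.2 ⟨T, hT, ?_⟩
    unfold Tri.code at hC'
    simp only [List.mem_cons, List.not_mem_nil, or_false] at hC' ⊢
    rcases hC' with rfl | rfl | rfl <;> simp
  rw [wval_L] at hone
  have hne' : (C.1.flatMap fun p => lab m Ts p.crossing p.isOver) ≠ [] := by
    intro e
    rw [List.flatMap_eq_nil_iff] at e
    exact word_ne h (hCP q hqC) (e q hqC)
  obtain ⟨L₁, L₂, x, e3⟩ := red_factor hone hne'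
  rcases flat_cancel (fun p : Pass => lab m Ts p.crossing p.isOver) x (x.1, !x.2) C.1 L₁ L₂
    (fun p hp => word_ne h (hCP p hp)) e3 with ⟨p, hp, l₁, l₂, e4⟩ |
      ⟨a, c, p, r, e4, ⟨l₁, e5⟩, ⟨l₂, e6⟩⟩
  · exact word_red h (hCP p hp) l₁ l₂ x e4
  · have hpC : p ∈ C.1 := by rw [e4]; simp
    have hrC : r ∈ C.1 := by rw [e4]; simp
    have hpr : p ≠ r := by
      have h5 := WF.nodup hwf
      rw [passes_append] at h5
      have h6 := (List.nodup_append.1 h5).1
      unfold passes at h6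
      have h7 := (List.nodup_flatMap.1 h6).1 C hC
      rw [e4] at h7
      have h8 := (List.nodup_append.1 h7).2.1
      rw [List.nodup_cons] at h8
      intro e
      exact h8.1 (by rw [e]; simp)
    exact hcon ⟨C, hC, a, c, p, r, e4, junction h (hCP p hpC) (hCP r hrC) hpr e5 e6⟩

end Pool.Agent.Y475.TP
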